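import Pool.Agent.R679.Cov5

set_option autoImplicit false

/-! MP_1000ca, Q2: the order of a minimum `p ^ n`-cover is at most `p ^ F(n)` for all primes `p`. -/

namespace Pool.Agent.Results.MP_1000ca_al.BoundedCover

open Pool.Agent.R679.Cov

/-- `U` contains a copy of every group of order `N` -/
def IsCover (N : ℕ) (U : Type) [Group U] : Prop :=
  ∀ (H : Type) [Group H], Nat.card H = N → ∃ φ : H →* U, Function.Injective φ

/-- `m p n` is the order of a minimum `p ^ n`-cover: the least order of a finite group that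
contains a copy of every group of order `p ^ n` -/
noncomputable def m (p n : ℕ) : ℕ :=
  sInf {N : ℕ | ∃ (U : Type) (_ : Group U) (_ : Finite U), IsCover (p ^ n) U ∧ Nat.card U = N}

theorem cayley (N : ℕ) (hN : 0 < N) : IsCover N (Equiv.Perm (Fin N)) := by
  intro H _ hH
  haveI : Finite H := Nat.finite_of_card_ne_zero (by omega)
  have e : H ≃ Fin N := by
    rw [← hH]
    exact Finite.equivFin H
  refine ⟨(e.permCongrHom.toMonoidHom).comp (MulAction.toPermHom H H), ?_⟩
  rw [MonoidHom.coe_comp]
  exact e.permCongrHom.injective.comp MulAction.toPerm_injective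

/-- The order of a minimum `p ^ n`-cover is at most `p ^ F(n)`, for a function `F` independent of
the prime `p`. (The minimum is attained.) -/
theorem result : ∃ F : ℕ → ℕ, ∀ p : ℕ, p.Prime → ∀ n : ℕ,
    m p n ≤ p ^ F n ∧
      ∃ (U : Type) (_ : Group U) (_ : Finite U), IsCover (p ^ n) U ∧ Nat.card U = m p n := by
  refine ⟨fun n => EE n * EE n * EE n * Fintype.card (Typ (EE n)) + n * (PP n) ^ n, ?_⟩
  intro p hp n
  haveI : Fact p.Prime := ⟨hp⟩
  have hne : {N : ℕ | ∃ (U : Type) (_ : Group U) (_ : Finite U),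
      IsCover (p ^ n) U ∧ Nat.card U = N}.Nonempty :=
    ⟨_, Equiv.Perm (Fin (p ^ n)), inferInstance, inferInstance,
      cayley _ (pow_pos hp.pos n), rfl⟩
  refine ⟨?_, Nat.sInf_mem hne⟩
  rcases Nat.lt_or_ge p (PP n) with h | h
  · have h1 : m p n ≤ Nat.card (Equiv.Perm (Fin (p ^ n))) :=
      Nat.sInf_le ⟨_, inferInstance, inferInstance, cayley _ (pow_pos hp.pos n), rfl⟩
    refine h1.trans ?_
    rw [Nat.card_eq_fintype_card, Fintype.card_perm, Fintype.card_fin]
    refine (Nat.factorial_le_pow _).trans ?_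
    rw [← pow_mul]
    apply Nat.pow_le_pow_right hp.pos
    refine le_trans ?_ (Nat.le_add_left _ _)
    exact Nat.mul_le_mul_left _ (Nat.pow_le_pow_left h.le n)
  · haveI := finite_UU (p := p) (EE n)
    have h1 : m p n ≤ Nat.card (UU p (EE n)) :=
      Nat.sInf_le ⟨UU p (EE n), inferInstance, inferInstance,
        fun H _ hH => embed h H hH, rfl⟩
    refine h1.trans ((card_UU_le (EE n)).trans ?_)
    exact Nat.pow_le_pow_right hp.pos (Nat.le_add_right _ _)

end Pool.Agent.Results.MP_1000ca_al.BoundedCover
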