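import Pool.Agent.R679.Tr10

namespace Pool.Agent.Results.MP_56eb46_lc.Minimal

open Pool.Agent.R679.Tr

/-- For every `k ≥ 3` the rational cone `T(S_≠^{(k)})` is minimal with respect to bounded
languages of degree `k`. -/
theorem result (k : ℕ) (hk : 3 ≤ k) : MinimalWrt k (gen (Sne k)) := minimal_Sne hk

end Pool.Agent.Results.MP_56eb46_lc.Minimal
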